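import Mathlib
import Pool.Agent.H361R2.InfT1

/-! A finitely additive measure on patterns is realised by the Lebesgue measure on an interval, so that
countable additivity can be used for the choice of a pattern. -/

set_option autoImplicit false

namespace Pool.Agent.J6H17.TA

open Finset Filter Topology MeasureTheory
open Pool.Agent.H361R2.Inf

section

variable (m : Set ℕ → ℝ) (E : ℕ → Set ℕ)

open Classical in
/-- left end point of the interval which belongs to the pattern `q` of length `N` -/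
noncomputable def lft (q : Set ℕ) (N : ℕ) : ℝ :=
  ∑ n ∈ range N, if n ∈ q then m (T1.cyl E q n \ E n) else 0

/-- the interval which belongs to the pattern `q` of length `N` -/
noncomputable def itv (q : Set ℕ) (N : ℕ) : Set ℝ :=
  Set.Ico (lft m E q N) (lft m E q N + m (T1.cyl E q N))

/-- the event `i` on the interval -/
def Ev (n : ℕ) : Set ℝ :=
  {x | ∃ q ∈ (range n).powerset, x ∈ itv m E q n ∧ lft m E q n + m (T1.cyl E q n \ E n) ≤ x}

/-- the pattern of `x` -/
def pat (x : ℝ) : Set ℕ := {i | x ∈ Ev m E i}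

end

variable {m : Set ℕ → ℝ} {E : ℕ → Set ℕ}

theorem cyl_congr {q q' : Set ℕ} {N : ℕ} (h : ∀ i < N, (i ∈ q ↔ i ∈ q')) :
    T1.cyl E q N = T1.cyl E q' N := by
  ext x
  simp only [T1.cyl, Set.mem_ofPred_eq]
  refine forall_congr' fun i => forall_congr' fun hi => ?_
  rw [h i hi]

theorem lft_congr {q q' : Set ℕ} {N : ℕ} (h : ∀ i < N, (i ∈ q ↔ i ∈ q')) :
    lft m E q N = lft m E q' N := by
  unfold lft
  refine Finset.sum_congr rfl fun n hn => ?_
  have hn' := Finset.mem_range.1 hn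
  rw [cyl_congr (fun i hi => h i (by omega))]
  by_cases h1 : n ∈ q
  · rw [if_pos h1, if_pos ((h n hn').1 h1)]
  · rw [if_neg h1, if_neg (fun h2 => h1 ((h n hn').2 h2))]

theorem itv_congr {q q' : Set ℕ} {N : ℕ} (h : ∀ i < N, (i ∈ q ↔ i ∈ q')) :
    itv m E q N = itv m E q' N := by
  unfold itv
  rw [lft_congr h, cyl_congr h]

theorem cyl_succ_in {q : Set ℕ} {N : ℕ} (h : N ∈ q) :
    T1.cyl E q (N + 1) = T1.cyl E q N ∩ E N := by
  ext x
  simp only [T1.cyl, Set.mem_ofPred_eq, Set.mem_inter_iff]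
  constructor
  · intro h1
    exact ⟨fun i hi => h1 i (by omega), (h1 N (by omega)).2 h⟩
  · rintro ⟨h1, h2⟩ i hi
    rcases Nat.lt_succ_iff_lt_or_eq.1 hi with h3 | rfl
    · exact h1 i h3
    · exact iff_of_true h2 h

theorem cyl_succ_out {q : Set ℕ} {N : ℕ} (h : N ∉ q) :
    T1.cyl E q (N + 1) = T1.cyl E q N \ E N := by
  ext x
  simp only [T1.cyl, Set.mem_ofPred_eq, Set.mem_sdiff]
  constructor
  · intro h1
    exact ⟨fun i hi => h1 i (by omega), fun h2 => h ((h1 N (by omega)).1 h2)⟩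
  · rintro ⟨h1, h2⟩ i hi
    rcases Nat.lt_succ_iff_lt_or_eq.1 hi with h3 | rfl
    · exact h1 i h3
    · exact iff_of_false h2 h

theorem lft_succ_in {q : Set ℕ} {N : ℕ} (h : N ∈ q) :
    lft m E q (N + 1) = lft m E q N + m (T1.cyl E q N \ E N) := by
  unfold lft
  rw [Finset.sum_range_succ, if_pos h]

theorem lft_succ_out {q : Set ℕ} {N : ℕ} (h : N ∉ q) :
    lft m E q (N + 1) = lft m E q N := by
  unfold lft
  rw [Finset.sum_range_succ, if_neg h, add_zero]

theorem m_split (hm : FMeas m) (q : Set ℕ) (N : ℕ) :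
    m (T1.cyl E q N) = m (T1.cyl E q N \ E N) + m (T1.cyl E q N ∩ E N) := by
  rw [← hm.add]
  · congr 1
    ext x
    simp only [Set.mem_union, Set.mem_sdiff, Set.mem_inter_iff]
    by_cases h1 : x ∈ E N
    · simp [h1]
    · simp [h1]
  · rw [Set.disjoint_left]
    rintro x ⟨_, h1⟩ ⟨_, h2⟩
    exact h1 h2

theorem itv_succ_in (hm : FMeas m) {q : Set ℕ} {N : ℕ} (h : N ∈ q) :
    itv m E q (N + 1) = {x ∈ itv m E q N | lft m E q N + m (T1.cyl E q N \ E N) ≤ x} := by
  unfold itv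
  rw [lft_succ_in h, cyl_succ_in h]
  have h1 := m_split (E := E) hm q N
  have h2 := hm.nonneg (T1.cyl E q N \ E N)
  ext x
  simp only [Set.mem_Ico, Set.mem_ofPred_eq]
  constructor
  · rintro ⟨h3, h4⟩
    exact ⟨⟨by linarith, by linarith⟩, h3⟩
  · rintro ⟨⟨h3, h4⟩, h5⟩
    exact ⟨h5, by linarith⟩

theorem itv_succ_out (hm : FMeas m) {q : Set ℕ} {N : ℕ} (h : N ∉ q) :
    itv m E q (N + 1) = {x ∈ itv m E q N | x < lft m E q N + m (T1.cyl E q N \ E N)} := by
  unfold itv
  rw [lft_succ_out h, cyl_succ_out h]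
  have h1 := m_split (E := E) hm q N
  have h2 := hm.nonneg (T1.cyl E q N ∩ E N)
  ext x
  simp only [Set.mem_Ico, Set.mem_ofPred_eq]
  constructor
  · rintro ⟨h3, h4⟩
    exact ⟨⟨h3, by linarith⟩, h4⟩
  · rintro ⟨⟨h3, h4⟩, h5⟩
    exact ⟨h3, h5⟩

theorem itv_pat (hm : FMeas m) (N : ℕ) :
    (∀ x ∈ Set.Ico 0 (m Set.univ), x ∈ itv m E (pat m E x) N) ∧
    ∀ q : Set ℕ, itv m E q N ⊆ Set.Ico 0 (m Set.univ) ∧
      ∀ x ∈ itv m E q N, ∀ i < N, (i ∈ q ↔ i ∈ pat m E x) := by
  classical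
  induction N with
  | zero =>
    have h0 : ∀ q : Set ℕ, itv m E q 0 = Set.Ico 0 (m Set.univ) := by
      intro q
      have h1 : T1.cyl E q 0 = Set.univ := by
        ext x
        simp [T1.cyl]
      unfold itv lft
      rw [h1]
      simp
    refine ⟨fun x hx => by rw [h0]; exact hx, fun q => ⟨by rw [h0], fun x _ i hi => by omega⟩⟩
  | succ N ih =>
    obtain ⟨ih1, ih2⟩ := ih
    have htr : ∀ q : Set ℕ, ∃ q' ∈ (range N).powerset, ∀ i < N, (i ∈ (q' : Set ℕ) ↔ i ∈ q) := by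
      intro q
      refine ⟨(range N).filter (· ∈ q), Finset.mem_powerset.2 (Finset.filter_subset _ _), ?_⟩
      intro i hi
      simp [hi]
    -- membership in the event number `N`
    have key : ∀ q : Set ℕ, ∀ x ∈ itv m E q N,
        (N ∈ pat m E x ↔ lft m E q N + m (T1.cyl E q N \ E N) ≤ x) := by
      intro q x hx
      constructor
      · rintro ⟨q', _, h1, h2⟩
        have h3 : ∀ i < N, (i ∈ (q' : Set ℕ) ↔ i ∈ q) := fun i hi => by
          rw [(ih2 q').2 x h1 i hi, (ih2 q).2 x hx i hi]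
        rwa [lft_congr h3, cyl_congr h3] at h2
      · intro h
        obtain ⟨q', hq', h3⟩ := htr q
        refine ⟨q', hq', ?_, ?_⟩
        · rwa [itv_congr h3]
        · rwa [lft_congr h3, cyl_congr h3]
    refine ⟨fun x hx => ?_, fun q => ⟨?_, ?_⟩⟩
    · have h1 := ih1 x hx
      by_cases h2 : N ∈ pat m E x
      · rw [itv_succ_in hm h2]
        exact ⟨h1, (key _ x h1).1 h2⟩
      · rw [itv_succ_out hm h2]
        exact ⟨h1, not_le.1 fun h3 => h2 ((key _ x h1).2 h3)⟩
    · by_cases h2 : N ∈ q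
      · rw [itv_succ_in hm h2]
        exact fun x hx => (ih2 q).1 hx.1
      · rw [itv_succ_out hm h2]
        exact fun x hx => (ih2 q).1 hx.1
    · intro x hx i hi
      by_cases h2 : N ∈ q
      · rw [itv_succ_in hm h2] at hx
        rcases Nat.lt_succ_iff_lt_or_eq.1 hi with h3 | rfl
        · exact (ih2 q).2 x hx.1 i h3
        · exact iff_of_true h2 ((key q x hx.1).2 hx.2)
      · rw [itv_succ_out hm h2] at hx
        rcases Nat.lt_succ_iff_lt_or_eq.1 hi with h3 | rfl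
        · exact (ih2 q).2 x hx.1 i h3
        · exact iff_of_false h2 fun h4 => absurd ((key q x hx.1).1 h4) (not_le.2 hx.2)

theorem measurable_itv (q : Set ℕ) (N : ℕ) : MeasurableSet (itv m E q N) := measurableSet_Ico

theorem measurable_Ev (n : ℕ) : MeasurableSet (Ev m E n) := by
  have h : Ev m E n = ⋃ q ∈ (range n).powerset, (itv m E q n ∩
      Set.Ici (lft m E q n + m (T1.cyl E q n \ E n))) := by
    ext x
    simp only [Ev, Set.mem_ofPred_eq, Set.mem_iUnion, Set.mem_inter_iff, Set.mem_Ici, exists_prop]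
  rw [h]
  exact Finset.measurableSet_biUnion _ fun q _ => (measurable_itv _ _).inter measurableSet_Ici

/-- the measure of an event which depends on finitely many coordinates -/
theorem m_le_volume (hm : FMeas m) (N : ℕ) (𝒢 : Set (Set ℕ))
    (hdep : ∀ I I' : Set ℕ, (∀ i < N, (i ∈ I ↔ i ∈ I')) → (I ∈ 𝒢 ↔ I' ∈ 𝒢)) :
    ENNReal.ofReal (m {n | {i | n ∈ E i} ∈ 𝒢}) ≤
      volume {x ∈ Set.Ico 0 (m Set.univ) | pat m E x ∈ 𝒢} := by
  classical
  set Q : Finset (Finset ℕ) := (range N).powerset.filter (fun q => (q : Set ℕ) ∈ 𝒢) with hQ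
  have h1 : {n | {i | n ∈ E i} ∈ 𝒢} ⊆ ⋃ q ∈ Q, T1.cyl E (q : Set ℕ) N := by
    intro n hn
    simp only [Set.mem_iUnion]
    have h2 : ∀ i < N, (i ∈ {i | n ∈ E i} ↔ i ∈ (((range N).filter (fun i => n ∈ E i) : Finset ℕ) : Set ℕ)) := by
      intro i hi
      simp [hi]
    refine ⟨(range N).filter (fun i => n ∈ E i), ?_, ?_⟩
    · rw [hQ, Finset.mem_filter]
      exact ⟨Finset.mem_powerset.2 (Finset.filter_subset _ _), (hdep _ _ h2).1 hn⟩
    · intro i hi
      exact h2 i hi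
  have h2 : m {n | {i | n ∈ E i} ∈ 𝒢} ≤ ∑ q ∈ Q, m (T1.cyl E (q : Set ℕ) N) :=
    (T1.mono hm h1).trans (T1.biUnion_le hm Q _)
  have h3 : ∀ q ∈ Q, volume (itv m E (q : Set ℕ) N) = ENNReal.ofReal (m (T1.cyl E (q : Set ℕ) N)) := by
    intro q _
    unfold itv
    rw [Real.volume_Ico]
    congr 1
    ring
  calc ENNReal.ofReal (m {n | {i | n ∈ E i} ∈ 𝒢})
      ≤ ENNReal.ofReal (∑ q ∈ Q, m (T1.cyl E (q : Set ℕ) N)) := ENNReal.ofReal_le_ofReal h2
    _ = ∑ q ∈ Q, ENNReal.ofReal (m (T1.cyl E (q : Set ℕ) N)) :=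
        ENNReal.ofReal_sum_of_nonneg fun q _ => hm.nonneg _
    _ = ∑ q ∈ Q, volume (itv m E (q : Set ℕ) N) := Finset.sum_congr rfl fun q hq => (h3 q hq).symm
    _ = volume (⋃ q ∈ Q, itv m E (q : Set ℕ) N) := by
        rw [measure_biUnion_finset]
        · intro q hq q' hq' hne
          rw [Function.onFun, Set.disjoint_left]
          intro x hx hx'
          apply hne
          ext i
          have hqs := Finset.mem_powerset.1 (Finset.mem_filter.1 hq).1
          have hqs' := Finset.mem_powerset.1 (Finset.mem_filter.1 hq').1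
          by_cases hi : i < N
          · have h4 := ((itv_pat hm N).2 (q : Set ℕ)).2 x hx i hi
            have h5 := ((itv_pat hm N).2 (q' : Set ℕ)).2 x hx' i hi
            rw [Finset.mem_coe] at h4 h5
            rw [h4, h5]
          · exact iff_of_false (fun h => hi (Finset.mem_range.1 (hqs h)))
              (fun h => hi (Finset.mem_range.1 (hqs' h)))
        · intro q _
          exact measurable_itv _ _
    _ ≤ _ := by
        apply measure_mono
        intro x hx
        simp only [Set.mem_iUnion] at hx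
        obtain ⟨q, hq, hxq⟩ := hx
        refine ⟨((itv_pat hm N).2 (q : Set ℕ)).1 hxq, ?_⟩
        have h4 := ((itv_pat hm N).2 (q : Set ℕ)).2 x hxq
        exact (hdep _ _ h4).1 (Finset.mem_filter.1 hq).2

/-- no pattern is lost -/
theorem cyl_pos (hm : FMeas m) {x : ℝ} (hx : x ∈ Set.Ico 0 (m Set.univ)) (N : ℕ) :
    0 < m (T1.cyl E (pat m E x) N) := by
  have h1 := (itv_pat (E := E) hm N).1 x hx
  unfold itv at h1
  rw [Set.mem_Ico] at h1
  linarith

/-- the upper limit of a sequence of events -/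
theorem limsup_ge {α : Type} [MeasurableSpace α] {μ : Measure α} [IsFiniteMeasure μ] (S : ℕ → Set α)
    (hS : ∀ n, MeasurableSet (S n)) (c : ENNReal) (h : ∃ᶠ n in atTop, c ≤ μ (S n)) :
    MeasurableSet {x | ∃ᶠ n in atTop, x ∈ S n} ∧ c ≤ μ {x | ∃ᶠ n in atTop, x ∈ S n} := by
  have h1 : {x | ∃ᶠ n in atTop, x ∈ S n} = ⋂ n, ⋃ k, ⋃ (_ : n ≤ k), S k := by
    ext x
    simp only [Set.mem_ofPred_eq, Set.mem_iInter, Set.mem_iUnion, Filter.frequently_atTop, exists_prop]
  have hM : ∀ n, MeasurableSet (⋃ k, ⋃ (_ : n ≤ k), S k) := fun n =>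
    MeasurableSet.iUnion fun k => MeasurableSet.iUnion fun _ => hS k
  have hanti : Antitone fun n => ⋃ k, ⋃ (_ : n ≤ k), S k := by
    intro a b hab x hx
    simp only [Set.mem_iUnion] at hx ⊢
    obtain ⟨k, hk, hx⟩ := hx
    exact ⟨k, hab.trans hk, hx⟩
  rw [h1]
  refine ⟨MeasurableSet.iInter hM, ?_⟩
  have h2 := tendsto_measure_iInter_atTop (μ := μ) (fun n => (hM n).nullMeasurableSet) hanti
    ⟨0, measure_ne_top _ _⟩
  refine ge_of_tendsto' h2 fun n => ?_
  obtain ⟨k, hk, hck⟩ := Filter.frequently_atTop.1 h n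
  refine hck.trans (measure_mono ?_)
  intro x hx
  simp only [Set.mem_iUnion]
  exact ⟨k, hk, hx⟩

end Pool.Agent.J6H17.TA
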