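import Mathlib
import Pool.Agent.J6H17.TA.Real
import Pool.Agent.N790.IA.Meas

/-! Infinite sequences of linear forms divided into classes, which are divided into infinitely many rows:
one infinite exact pattern has elements in infinitely many classes of infinitely many rows. -/

set_option autoImplicit false

namespace Pool.Agent.J6H17.TA

open Finset Filter Topology MeasureTheory
open Pool.Agent.H361R2.Inf
open Pool.Agent.N790.IA (hits)

open Classical in
/-- in infinitely many groups of `n` rows the set `I` meets, for many rows of the group, infinitely many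
classes -/
def PR (n : ℕ) (off : ℕ → ℕ) (I : Set ℕ) : Prop :=
  ∃ᶠ k in atTop, n ≤ 400 * ((range n).filter
    (fun a => ∃ᶠ w in atTop, hits off I (n * Nat.pair k w + a))).card

open Classical in
theorem hcomb (n : ℕ) (hn : 1 ≤ n) (off : ℕ → ℕ) :
    ∀ (m : Set ℕ → ℝ), FMeas m → m Set.univ ≤ 2 → ∀ (E : ℕ → Set ℕ),
      (∀ t, (1 / 200 : ℝ) ≤ m {x | ∃ i ∈ Ico (off t) (off (t + 1)), x ∈ E i}) →
      ∃ I : Set ℕ, PR n off I ∧ ∀ N : ℕ, 0 < m {x | ∀ i < N, (x ∈ E i ↔ i ∈ I)} := by
  intro m hm hm2 E hE
  have hnr : (1 : ℝ) ≤ n := by exact_mod_cast hn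
  set μ : Measure ℝ := volume.restrict (Set.Ico 0 (m Set.univ)) with hμ
  have hfin : IsFiniteMeasure μ := ⟨by
    rw [hμ, Measure.restrict_apply_univ, Real.volume_Ico]
    exact ENNReal.ofReal_lt_top⟩
  have huniv : μ Set.univ ≤ 2 := by
    rw [hμ, Measure.restrict_apply_univ, Real.volume_Ico]
    refine (ENNReal.ofReal_le_ofReal (show m Set.univ - 0 ≤ 2 by linarith)).trans ?_
    rw [ENNReal.ofReal_ofNat]
  -- the classes
  set A : ℕ → Set ℝ := fun t => {x | hits off (pat m E x) t} with hA
  have hAm : ∀ t, MeasurableSet (A t) := by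
    intro t
    have h : A t = ⋃ i ∈ Ico (off t) (off (t + 1)), Ev m E i := by
      ext x
      simp only [hA, hits, pat, Set.mem_ofPred_eq, Set.mem_iUnion, exists_prop]
    rw [h]
    exact Finset.measurableSet_biUnion _ fun i _ => measurable_Ev i
  have hAc : ∀ t, ENNReal.ofReal (1 / 200) ≤ μ (A t) := by
    intro t
    have h1 := m_le_volume (E := E) hm (off (t + 1)) {I | hits off I t} (by
      intro I I' h
      simp only [Set.mem_ofPred_eq, hits]
      constructor
      · rintro ⟨i, hi, h2⟩
        exact ⟨i, hi, (h i (Finset.mem_Ico.1 hi).2).1 h2⟩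
      · rintro ⟨i, hi, h2⟩
        exact ⟨i, hi, (h i (Finset.mem_Ico.1 hi).2).2 h2⟩)
    have h2 : {x | {i | x ∈ E i} ∈ {I : Set ℕ | hits off I t}} =
        {x | ∃ i ∈ Ico (off t) (off (t + 1)), x ∈ E i} := by
      ext x
      simp only [hits, Set.mem_ofPred_eq]
    rw [h2] at h1
    refine (ENNReal.ofReal_le_ofReal (hE t)).trans (h1.trans ?_)
    rw [hμ, Measure.restrict_apply (hAm t)]
    apply measure_mono
    rintro x ⟨hx1, hx2⟩
    exact ⟨hx2, hx1⟩
  -- the rows
  set L : ℕ → ℕ → Set ℝ := fun k a => {x | ∃ᶠ w in atTop, x ∈ A (n * Nat.pair k w + a)} with hL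
  have hLL : ∀ k a, MeasurableSet (L k a) ∧ ENNReal.ofReal (1 / 200) ≤ μ (L k a) := by
    intro k a
    exact limsup_ge (fun w => A (n * Nat.pair k w + a)) (fun w => hAm _) _
      (Filter.Eventually.frequently (Filter.Eventually.of_forall fun w => hAc _))
  -- the groups
  set G : ℕ → Set ℝ := fun k => {x | n ≤ 400 * ((range n).filter (fun a => x ∈ L k a)).card} with hG
  have hGm : ∀ k, MeasurableSet (G k) := by
    intro k
    have h : G k = ⋃ S ∈ (range n).powerset.filter (fun S => n ≤ 400 * S.card), ⋂ a ∈ S, L k a := by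
      ext x
      simp only [hG, Set.mem_ofPred_eq, Set.mem_iUnion, exists_prop, Set.mem_iInter,
        Finset.mem_filter, Finset.mem_powerset]
      constructor
      · intro h
        exact ⟨_, ⟨Finset.filter_subset _ _, h⟩, fun a ha => (Finset.mem_filter.1 ha).2⟩
      · rintro ⟨S, ⟨h1, h2⟩, h3⟩
        refine h2.trans (Nat.mul_le_mul_left _ (Finset.card_le_card ?_))
        intro a ha
        exact Finset.mem_filter.2 ⟨h1 ha, h3 a ha⟩
    rw [h]
    exact Finset.measurableSet_biUnion _ fun S _ =>
      Finset.measurableSet_biInter _ fun a _ => (hLL k a).1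
  have hGc : ∀ k, ENNReal.ofReal (1 / (200 * n)) ≤ μ (G k) := by
    intro k
    have h1 : ∑ a ∈ range n, μ (L k a) ≤ n * μ (G k) + (((n - 1) / 400 : ℕ) : ENNReal) * μ Set.univ := by
      calc ∑ a ∈ range n, μ (L k a) = ∑ a ∈ range n, ∫⁻ x, (L k a).indicator 1 x ∂μ := by
            refine Finset.sum_congr rfl fun a _ => ?_
            rw [lintegral_indicator_one (hLL k a).1]
        _ = ∫⁻ x, ∑ a ∈ range n, (L k a).indicator 1 x ∂μ := by
            rw [lintegral_finset_sum]
            intro a _
            exact measurable_one.indicator (hLL k a).1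
        _ ≤ ∫⁻ x, ((n : ENNReal) * (G k).indicator 1 x + (((n - 1) / 400 : ℕ) : ENNReal)) ∂μ := by
            apply lintegral_mono
            intro x
            beta_reduce
            have h2 : ∑ a ∈ range n, (L k a).indicator (1 : ℝ → ENNReal) x =
                (((range n).filter (fun a => x ∈ L k a)).card : ENNReal) := by
              rw [Finset.card_filter, Nat.cast_sum]
              refine Finset.sum_congr rfl fun a _ => ?_
              by_cases h3 : x ∈ L k a
              · rw [Set.indicator_of_mem h3, if_pos h3]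
                simp
              · rw [Set.indicator_of_notMem h3, if_neg h3]
                simp
            rw [h2]
            by_cases h3 : x ∈ G k
            · rw [Set.indicator_of_mem h3]
              refine le_trans ?_ (le_self_add)
              rw [Pi.one_apply, mul_one]
              exact_mod_cast (Finset.card_filter_le _ _).trans (by rw [Finset.card_range])
            · rw [Set.indicator_of_notMem h3, mul_zero, zero_add]
              have h4 : ¬ n ≤ 400 * ((range n).filter (fun a => x ∈ L k a)).card := h3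
              exact_mod_cast (Nat.le_div_iff_mul_le (by norm_num)).2 (by omega)
        _ = n * μ (G k) + (((n - 1) / 400 : ℕ) : ENNReal) * μ Set.univ := by
            rw [lintegral_add_right _ measurable_const, lintegral_const_mul, lintegral_indicator_one (hGm k),
              lintegral_const]
            exact measurable_one.indicator (hGm k)
    have h2 : (n : ENNReal) * ENNReal.ofReal (1 / 200) ≤
        n * μ (G k) + (((n - 1) / 400 : ℕ) : ENNReal) * 2 := by
      calc (n : ENNReal) * ENNReal.ofReal (1 / 200) = ∑ a ∈ range n, ENNReal.ofReal (1 / 200) := by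
            rw [Finset.sum_const, Finset.card_range, nsmul_eq_mul]
        _ ≤ ∑ a ∈ range n, μ (L k a) := Finset.sum_le_sum fun a _ => (hLL k a).2
        _ ≤ _ := h1.trans (add_le_add_right (mul_le_mul_right huniv _) _)
    have hGne : μ (G k) ≠ ⊤ := measure_ne_top _ _
    have h3 := ENNReal.toReal_mono (by finiteness) h2
    rw [ENNReal.toReal_mul, ENNReal.toReal_natCast, ENNReal.toReal_ofReal (by norm_num),
      ENNReal.toReal_add (by finiteness) (by finiteness), ENNReal.toReal_mul, ENNReal.toReal_mul,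
      ENNReal.toReal_natCast, ENNReal.toReal_natCast, ENNReal.toReal_ofNat] at h3
    have hfl : (((n - 1) / 400 : ℕ) : ℝ) ≤ ((n : ℝ) - 1) / 400 := by
      rw [le_div_iff₀ (by norm_num)]
      have h5 : (n - 1) / 400 * 400 ≤ n - 1 := Nat.div_mul_le_self _ _
      have h6 : (((n - 1) / 400 * 400 : ℕ) : ℝ) ≤ ((n - 1 : ℕ) : ℝ) := by exact_mod_cast h5
      rw [Nat.cast_sub hn] at h6
      push_cast at h6
      exact h6
    rw [← ENNReal.ofReal_toReal hGne]
    apply ENNReal.ofReal_le_ofReal
    rw [div_le_iff₀ (by positivity)]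
    nlinarith
  obtain ⟨-, hlim⟩ := limsup_ge G hGm (ENNReal.ofReal (1 / (200 * n)))
    (Filter.Eventually.frequently (Filter.Eventually.of_forall hGc))
  have hpos : 0 < μ {x | ∃ᶠ k in atTop, x ∈ G k} :=
    lt_of_lt_of_le (ENNReal.ofReal_pos.2 (by positivity)) hlim
  obtain ⟨x, hx1, hx2⟩ : ∃ x ∈ Set.Ico 0 (m Set.univ), ∃ᶠ k in atTop, x ∈ G k := by
    by_contra hcon
    push Not at hcon
    refine hpos.ne' ?_
    rw [hμ, Measure.restrict_apply' measurableSet_Ico]
    have h : {x | ∃ᶠ k in atTop, x ∈ G k} ∩ Set.Ico 0 (m Set.univ) = ∅ := by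
      rw [Set.eq_empty_iff_forall_notMem]
      rintro x ⟨hx1, hx2⟩
      exact hx1 (hcon x hx2)
    rw [h, measure_empty]
  refine ⟨pat m E x, ?_, fun N => cyl_pos hm hx1 N⟩
  exact hx2

/-- **the pattern theorem for infinitely many rows** -/
theorem rowPattern : ∃ off : ℕ → ℕ, StrictMono off ∧ off 0 = 0 ∧ ∀ n : ℕ, 1 ≤ n →
    ∀ (A B : ℕ → ℤ), (∀ i, 1 ≤ A i) → (∀ i, IsCoprime (A i) (B i)) →
      Function.Injective (fun i => (A i, B i)) →
      (∀ p : ℕ, p.Prime → ∃ x : ℕ, ∀ i, ¬ (p : ℤ) ∣ A i * x + B i) →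
      ∃ I : Set ℕ, PR n off I ∧ ∀ T : Finset (ℤ × ℤ), (∀ f ∈ T, 1 ≤ f.1) →
        {x : ℕ | ∀ f ∈ T, (Nat.Prime (f.1 * x + f.2).toNat ↔ ∃ i ∈ I, f = (A i, B i))}.Infinite := by
  obtain ⟨off, hoff, h0, hBM⟩ := exists_blockMeas
  refine ⟨off, hoff, h0, fun n hn A B hA hcop hinj hadm => ?_⟩
  refine exact_seq_of (PR n off) off ?_ A B hA hcop hinj hadm
  intro A B hA hne W r hW hWp hc hcop
  exact inf_class_of_combP (PR n off) off hoff h0 (1 / 200) (by norm_num) (hcomb n hn off) hBM
    A B hA hne W r hW hWp hc hcop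

end Pool.Agent.J6H17.TA
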