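import Mathlib
import Pool.Agent.J6H17.TA.Pat
import Pool.Agent.N790.IA.Rank

/-! Infinite matrices of linear forms: the game in which rows and columns are chosen with respect to an
ultrafilter. -/

set_option autoImplicit false

namespace Pool.Agent.J6H17.TA

open Finset Filter
open Pool.Agent.N790.IA (hits avoid blocks blocks_unique)

variable {ι : Type} {n : ℕ}

theorem lim_val (U : Ultrafilter ι) {α : Type} [Finite α] (g : ι → α) :
    ∃ v, ∀ᶠ j in (U : Filter ι), g j = v := by
  by_contra hcon
  have h1 : ∀ v : α, ∀ᶠ j in (U : Filter ι), g j ≠ v := fun v =>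
    Ultrafilter.eventually_not.2 fun h => hcon ⟨v, h⟩
  have h2 : ∀ᶠ j in (U : Filter ι), ∀ v : α, g j ≠ v := Filter.eventually_all.2 h1
  obtain ⟨j, hj⟩ := h2.exists
  exact hj _ rfl

variable [DecidableEq ι]

/-- two interleaved diagonal sequences -/
theorem diag2 (U : Ultrafilter ι) (Φ Ψ : ℕ → Finset ι → Finset ι → Set ι)
    (hΦ : ∀ i A B, ∀ᶠ r in (U : Filter ι), r ∈ Φ i A B)
    (hΨ : ∀ i A B, ∀ᶠ j in (U : Filter ι), j ∈ Ψ i A B) :
    ∃ r j : ℕ → ι, ∀ i, r i ∈ Φ i ((range i).image r) ((range i).image j) ∧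
      j i ∈ Ψ i ((range (i + 1)).image r) ((range i).image j) := by
  choose g hg using fun i A B => (hΦ i A B).exists
  choose h hh using fun i A B => (hΨ i A B).exists
  let Q : ℕ → Finset ι × Finset ι := fun i => Nat.rec (∅, ∅) (fun i q =>
    (insert (g i q.1 q.2) q.1, insert (h i (insert (g i q.1 q.2) q.1) q.2) q.2)) i
  have hQs : ∀ i, Q (i + 1) = (insert (g i (Q i).1 (Q i).2) (Q i).1,
    insert (h i (insert (g i (Q i).1 (Q i).2) (Q i).1) (Q i).2) (Q i).2) := fun i => rfl
  set r : ℕ → ι := fun i => g i (Q i).1 (Q i).2 with hr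
  set j : ℕ → ι := fun i => h i (insert (g i (Q i).1 (Q i).2) (Q i).1) (Q i).2 with hj
  have hQ : ∀ i, (Q i).1 = (range i).image r ∧ (Q i).2 = (range i).image j := by
    intro i
    induction i with
    | zero => simp [Q]
    | succ i ih =>
      rw [hQs]
      constructor
      · change insert (r i) (Q i).1 = _
        rw [range_add_one, image_insert, ih.1]
      · change insert (j i) (Q i).2 = _
        rw [range_add_one, image_insert, ih.2]
  refine ⟨r, j, fun i => ⟨?_, ?_⟩⟩
  · rw [← (hQ i).1, ← (hQ i).2]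
    exact hg _ _ _
  · have h1 : (range (i + 1)).image r = insert (r i) (Q i).1 := by
      rw [range_add_one, image_insert, (hQ i).1]
    rw [h1, ← (hQ i).2]
    exact hh _ _ _

/-- The states of the game from which a pattern without the property `G` is reached: `R` is the set of the
rows which may be used, `F` the set of the entries (column, row, kind of the row) which are chosen. A move adds
a row to `R`, or an entry in a row of `R` to `F`; the new row or the column of the entry is a generic one. -/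
inductive Bad (U : Ultrafilter ι) (G : Finset ι → Finset (ι × ι × Fin n) → Prop)
    (S : Finset (Fin n)) :
    Ordinal.{0} → Finset ι → Finset (ι × ι × Fin n) → Prop
  | base (α : Ordinal.{0}) (R : Finset ι) (F : Finset (ι × ι × Fin n)) :
      ¬ G R F → Bad U G S α R F
  | col (α : Ordinal.{0}) (R : Finset ι) (F : Finset (ι × ι × Fin n)) (r : ι) (hr : r ∈ R)
      (a : Fin n) (ha : a ∈ S) (X : Set ι) (hX : ∀ᶠ j in (U : Filter ι), j ∈ X)
      (b : ι → Ordinal.{0}) (hb : ∀ j ∈ X, b j < α)
      (h : ∀ j ∈ X, Bad U G S (b j) R (insert (j, r, a) F)) : Bad U G S α R F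
  | row (α : Ordinal.{0}) (R : Finset ι) (F : Finset (ι × ι × Fin n)) (X : Set ι)
      (hX : ∀ᶠ j in (U : Filter ι), j ∈ X) (b : ι → Ordinal.{0}) (hb : ∀ j ∈ X, b j < α)
      (h : ∀ j ∈ X, Bad U G S (b j) (insert j R) F) : Bad U G S α R F

variable {U : Ultrafilter ι} {G : Finset ι → Finset (ι × ι × Fin n) → Prop} {S : Finset (Fin n)}

theorem good_of_not {R : Finset ι} {F : Finset (ι × ι × Fin n)} (h : ∀ α, ¬ Bad U G S α R F) :
    G R F := by
  by_contra hG
  exact h 0 (Bad.base 0 R F hG)

theorem next_col {R : Finset ι} {F : Finset (ι × ι × Fin n)} (h : ∀ α, ¬ Bad U G S α R F)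
    {r : ι} (hr : r ∈ R) {a : Fin n} (ha : a ∈ S) :
    ∀ᶠ j in (U : Filter ι), ∀ α, ¬ Bad U G S α R (insert (j, r, a) F) := by
  classical
  by_contra hcon
  rw [← Ultrafilter.eventually_not] at hcon
  have hcon' : ∀ᶠ j in (U : Filter ι), j ∈ {j | ∃ α, Bad U G S α R (insert (j, r, a) F)} := by
    filter_upwards [hcon] with j hj
    push Not at hj
    exact hj
  set b : ι → Ordinal.{0} := fun j =>
    if hj : ∃ α, Bad U G S α R (insert (j, r, a) F) then hj.choose else 0 with hb
  obtain ⟨M, hM⟩ : BddAbove (Set.range b) := Ordinal.bddAbove_of_small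
  refine h (Order.succ M) (Bad.col _ R F r hr a ha _ hcon' b (fun j _ => ?_) (fun j hj => ?_))
  · exact Order.lt_succ_of_le (hM (Set.mem_range_self j))
  · have hj' : ∃ α, Bad U G S α R (insert (j, r, a) F) := hj
    simp only [hb]
    rw [dif_pos hj']
    exact hj'.choose_spec

theorem next_row {R : Finset ι} {F : Finset (ι × ι × Fin n)} (h : ∀ α, ¬ Bad U G S α R F) :
    ∀ᶠ j in (U : Filter ι), ∀ α, ¬ Bad U G S α (insert j R) F := by
  classical
  by_contra hcon
  rw [← Ultrafilter.eventually_not] at hcon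
  have hcon' : ∀ᶠ j in (U : Filter ι), j ∈ {j | ∃ α, Bad U G S α (insert j R) F} := by
    filter_upwards [hcon] with j hj
    push Not at hj
    exact hj
  set b : ι → Ordinal.{0} := fun j =>
    if hj : ∃ α, Bad U G S α (insert j R) F then hj.choose else 0 with hb
  obtain ⟨M, hM⟩ : BddAbove (Set.range b) := Ordinal.bddAbove_of_small
  refine h (Order.succ M) (Bad.row _ R F _ hcon' b (fun j _ => ?_) (fun j hj => ?_))
  · exact Order.lt_succ_of_le (hM (Set.mem_range_self j))
  · have hj' : ∃ α, Bad U G S α (insert j R) F := hj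
    simp only [hb]
    rw [dif_pos hj']
    exact hj'.choose_spec

theorem strat (hn : 1 ≤ n) (S : Finset (Fin n)) (R : Finset ι) (F : Finset (ι × ι × Fin n)) :
    ∃ (r : ι) (a : Fin n) (X : Set ι), (∀ᶠ j in (U : Filter ι), j ∈ X) ∧
      ∀ ρ, Bad U G S ρ R F → (∀ ρ' < ρ, ¬ Bad U G S ρ' R F) → G R F →
        (r ∈ R ∧ a ∈ S ∧ ∀ j ∈ X, ∃ β < ρ, Bad U G S β R (insert (j, r, a) F)) ∨
        (∀ j ∈ X, ∃ β < ρ, Bad U G S β (insert j R) F) := by
  obtain ⟨r0⟩ : Nonempty ι := Filter.nonempty_of_neBot (U : Filter ι)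
  by_cases h : ∃ ρ, Bad U G S ρ R F ∧ (∀ ρ' < ρ, ¬ Bad U G S ρ' R F) ∧ G R F
  · obtain ⟨ρ, h1, h2, h3⟩ := h
    have huniq : ∀ ρ', Bad U G S ρ' R F → (∀ ρ'' < ρ', ¬ Bad U G S ρ'' R F) → ρ' = ρ := by
      intro ρ' h5 h6
      rcases lt_trichotomy ρ' ρ with h8 | h8 | h8
      · exact absurd h5 (h2 _ h8)
      · exact h8
      · exact absurd h1 (h6 _ h8)
    cases h1 with
    | base _ _ _ h4 => exact absurd h3 h4
    | col _ _ _ r hr a ha X hX b hb h4 =>
      refine ⟨r, a, X, hX, fun ρ' h5 h6 _ => ?_⟩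
      have h7 := huniq ρ' h5 h6
      subst h7
      exact Or.inl ⟨hr, ha, fun j hj => ⟨b j, hb j hj, h4 j hj⟩⟩
    | row _ _ _ X hX b hb h4 =>
      refine ⟨r0, ⟨0, hn⟩, X, hX, fun ρ' h5 h6 _ => ?_⟩
      have h7 := huniq ρ' h5 h6
      subst h7
      exact Or.inr fun j hj => ⟨b j, hb j hj, h4 j hj⟩
  · refine ⟨r0, ⟨0, hn⟩, Set.univ, by simp, fun ρ h1 h2 h3 => absurd ⟨ρ, h1, h2, h3⟩ h⟩

/-- the entries of `F` are simultaneously prime infinitely often, all forms of any given finite set `T` being
composite which are not entries of `F`, if all the columns which contain a form of `T` are related to the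
columns of `F` or to the rows in `R` -/
def Gd (V Q : ι → ι → Prop) (P : ι → ι → Fin n → ℤ × ℤ) (R : Finset ι)
    (F : Finset (ι × ι × Fin n)) : Prop :=
  ∀ T : Finset (ℤ × ℤ), (∀ t ∈ T, 1 ≤ t.1 ∧ ∀ j r a, V j r → t = P j r a →
      (∃ q ∈ F, Q q.1 j) ∨ ∃ r' ∈ R, Q r' j) →
    {x : ℕ | (∀ q ∈ F, Nat.Prime ((P q.1 q.2.1 q.2.2).1 * x + (P q.1 q.2.1 q.2.2).2).toNat) ∧
      ∀ t ∈ T, Nat.Prime (t.1 * x + t.2).toNat → ∃ q ∈ F, t = P q.1 q.2.1 q.2.2}.Infinite

omit [DecidableEq ι] in
/-- conditions for a row -/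
structure Row (U : Ultrafilter ι) (V : ι → ι → Prop) (P : ι → ι → Fin n → ℤ × ℤ) (r : ι) : Prop where
  val : ∀ᶠ j in (U : Filter ι), V j r
  prim : ∀ a, ∀ᶠ j in (U : Filter ι), 1 ≤ (P j r a).1 ∧ IsCoprime (P j r a).1 (P j r a).2
  esc : ∀ a t, ∀ᶠ j in (U : Filter ι), P j r a ≠ t

omit [DecidableEq ι] in
/-- conditions for the matrices -/
structure Arr (U : Ultrafilter ι) (V Q : ι → ι → Prop) (P : ι → ι → Fin n → ℤ × ℤ) : Prop where
  row : ∀ᶠ r in (U : Filter ι), Row U V P r
  sep : ∀ j', ∀ᶠ j in (U : Filter ι), ¬ Q j' j ∧ ¬ Q j j'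
  adm : ∀ p : ℕ, p.Prime → p ≤ n → ∃ c : ℤ, ∀ᶠ r in (U : Filter ι), ∀ a, ∀ᶠ j in (U : Filter ι),
    ¬ (p : ℤ) ∣ (P j r a).1 * c + (P j r a).2

/-- residues -/
def res (m : ℕ) (t : ℤ × ℤ) : ZMod (m + 1) × ZMod (m + 1) := ((t.1 : ZMod (m + 1)), (t.2 : ZMod (m + 1)))

theorem res_ne {m : ℕ} (hp : (m + 1).Prime) {t : ℤ × ℤ} (h : IsCoprime t.1 t.2) : res m t ≠ 0 := by
  intro h0
  have h1 := (Prod.ext_iff.1 h0).1
  have h2 := (Prod.ext_iff.1 h0).2
  simp only [res, Prod.fst_zero, Prod.snd_zero] at h1 h2
  rw [ZMod.intCast_zmod_eq_zero_iff_dvd] at h1 h2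
  have := h.isUnit_of_dvd' h1 h2
  exact (Nat.prime_iff_prime_int.1 hp).not_isUnit this

theorem res_dvd {m : ℕ} {t : ℤ × ℤ} {y : ZMod (m + 1)} (h : (res m t).1 * y + (res m t).2 ≠ 0)
    (hd : ((m + 1 : ℕ) : ℤ) ∣ t.1 * (y.val : ℕ) + t.2) : False := by
  have h1 := (ZMod.intCast_zmod_eq_zero_iff_dvd _ (m + 1)).2 hd
  push_cast at h1
  rw [ZMod.natCast_zmod_val] at h1
  exact h h1

variable {V Q : ι → ι → Prop} {P : ι → ι → Fin n → ℤ × ℤ}

/-- **the empty pattern is not bad**, for a large set of kinds of rows -/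
theorem notBad (hn : 1 ≤ n) (h : Arr U V Q P) :
    ∃ S : Finset (Fin n), n ≤ 400 * S.card ∧ ∀ α, ¬ Bad U (Gd V Q P) S α ∅ ∅ := by
  classical
  by_contra hcon
  push Not at hcon
  choose sr sa sX hsX hs using fun (S : Finset (Fin n)) (R : Finset ι) (F : Finset (ι × ι × Fin n)) =>
    strat (U := U) (G := Gd V Q P) hn S R F
  -- the residues
  choose v hv using fun (m : ℕ) (r : ι) (a : Fin n) => lim_val U (fun j => res m (P j r a))
  choose vs hvs using fun (m : ℕ) (a : Fin n) => lim_val U (fun r => v m r a)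
  obtain ⟨off, hoff, h0, hcl⟩ := rowPattern
  set M : ℕ → ℕ := fun i => n + (i + 1) * (n + 1) with hM
  obtain ⟨r, j, hrj⟩ := diag2 U
    (fun i A B => {r | (∀ S : Finset (Fin n), ∀ R ∈ A.powerset, ∀ F ∈ (B ×ˢ A ×ˢ univ).powerset,
      r ∈ sX S R F) ∧ Row U V P r ∧ (∀ j' ∈ B, ¬ Q j' r ∧ ¬ Q r j') ∧
      ∀ m ∈ range (M i), ∀ a, v m r a = vs m a})
    (fun i A B => {j | (∀ S : Finset (Fin n), ∀ R ∈ A.powerset, ∀ F ∈ (B ×ˢ A ×ˢ univ).powerset,
      j ∈ sX S R F) ∧ (∀ r ∈ A, Row U V P r →
        V j r ∧ ∀ a, 1 ≤ (P j r a).1 ∧ IsCoprime (P j r a).1 (P j r a).2) ∧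
      (∀ r ∈ A, Row U V P r → ∀ a, ∀ q ∈ (B ×ˢ A ×ˢ univ : Finset (ι × ι × Fin n)),
        P j r a ≠ P q.1 q.2.1 q.2.2) ∧ (∀ j' ∈ B ∪ A, ¬ Q j' j ∧ ¬ Q j j') ∧
      ∀ m ∈ range (M i), ∀ r ∈ A, ∀ a, res m (P j r a) = v m r a})
    (by
      intro i A B
      refine Filter.Eventually.and ?_ (Filter.Eventually.and h.row (Filter.Eventually.and ?_ ?_))
      · rw [Filter.eventually_all]
        intro S
        rw [Filter.eventually_all_finset]
        intro R _
        rw [Filter.eventually_all_finset]
        intro F _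
        exact hsX S R F
      · rw [Filter.eventually_all_finset]
        intro j' _
        exact h.sep j'
      · rw [Filter.eventually_all_finset]
        intro m _
        rw [Filter.eventually_all]
        intro a
        exact hvs m a)
    (by
      intro i A B
      refine Filter.Eventually.and ?_ (Filter.Eventually.and ?_ (Filter.Eventually.and ?_
        (Filter.Eventually.and ?_ ?_)))
      · rw [Filter.eventually_all]
        intro S
        rw [Filter.eventually_all_finset]
        intro R _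
        rw [Filter.eventually_all_finset]
        intro F _
        exact hsX S R F
      · rw [Filter.eventually_all_finset]
        intro r _
        by_cases hr : Row U V P r
        · have h1 : ∀ᶠ j in (U : Filter ι), ∀ a,
              1 ≤ (P j r a).1 ∧ IsCoprime (P j r a).1 (P j r a).2 := by
            rw [Filter.eventually_all]
            intro a
            exact hr.prim a
          filter_upwards [hr.val, h1] with j h2 h3 _ using ⟨h2, h3⟩
        · filter_upwards with j h2 using absurd h2 hr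
      · rw [Filter.eventually_all_finset]
        intro r _
        by_cases hr : Row U V P r
        · have h1 : ∀ᶠ j in (U : Filter ι), ∀ a,
              ∀ q ∈ (B ×ˢ A ×ˢ univ : Finset (ι × ι × Fin n)), P j r a ≠ P q.1 q.2.1 q.2.2 := by
            rw [Filter.eventually_all]
            intro a
            rw [Filter.eventually_all_finset]
            intro q _
            exact hr.esc a _
          filter_upwards [h1] with j h2 _ using h2
        · filter_upwards with j h2 using absurd h2 hr
      · rw [Filter.eventually_all_finset]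
        intro j' _
        exact h.sep j'
      · rw [Filter.eventually_all_finset]
        intro m _
        rw [Filter.eventually_all_finset]
        intro r _
        rw [Filter.eventually_all]
        intro a
        exact hv m r a)
  choose blk hblk1 hblk2 using blocks hoff h0
  have hblk3 : ∀ i, blk i ≤ i := fun i => (hoff.id_le (blk i)).trans (hblk1 i)
  set rw' : ℕ → ℕ := fun i => (Nat.unpair (blk i / n)).1 with hrw
  set ty : ℕ → Fin n := fun i => ⟨blk i % n, Nat.mod_lt _ hn⟩ with hty
  have hrwi : ∀ i, rw' i ≤ i := fun i =>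
    (Nat.unpair_left_le _).trans ((Nat.div_le_self _ _).trans (hblk3 i))
  set f : ℕ → ℤ × ℤ := fun i => P (j i) (r (rw' i)) (ty i) with hf
  have hmem : ∀ {k i : ℕ}, k < i → r k ∈ (range i).image r := fun hk =>
    mem_image_of_mem _ (mem_range.2 hk)
  have hmem2 : ∀ {k i : ℕ}, k < i → j k ∈ (range i).image j := fun hk =>
    mem_image_of_mem _ (mem_range.2 hk)
  have hne : ∀ i' i, i' < i → f i ≠ f i' := by
    intro i' i hi
    refine (hrj i).2.2.2.1 (r (rw' i)) (hmem (by have := hrwi i; omega)) (hrj _).1.2.1 (ty i)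
      (j i', r (rw' i'), ty i') ?_
    simp only [Finset.mem_product, Finset.mem_univ, and_true]
    exact ⟨hmem2 hi, hmem (by have := hrwi i'; omega)⟩
  have hfinj : Function.Injective f := by
    intro i i' he
    rcases lt_trichotomy i i' with h1 | h1 | h1
    · exact absurd he.symm (hne _ _ h1)
    · exact h1
    · exact absurd he (hne _ _ h1)
  have hjinj : ∀ i i', Q (j i) (j i') → i = i' := by
    intro i i' he
    rcases lt_trichotomy i i' with h1 | h1 | h1
    · exact absurd he ((hrj i').2.2.2.2.1 _ (mem_union_left _ (hmem2 h1))).1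
    · exact h1
    · exact absurd he ((hrj i).2.2.2.2.1 _ (mem_union_left _ (hmem2 h1))).2
  have hrj' : ∀ k i, ¬ Q (r k) (j i) := by
    intro k i
    rcases Nat.lt_or_ge i k with h1 | h1
    · exact ((hrj k).1.2.2.1 _ (hmem2 h1)).2
    · exact ((hrj i).2.2.2.2.1 _ (mem_union_right _ (hmem (by omega)))).1
  have hprim : ∀ i, V (j i) (r (rw' i)) ∧ 1 ≤ (f i).1 ∧ IsCoprime (f i).1 (f i).2 := by
    intro i
    have h1 := (hrj i).2.2.1 (r (rw' i)) (hmem (by have := hrwi i; omega)) (hrj _).1.2.1
    exact ⟨h1.1, h1.2 (ty i)⟩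
  have hres : ∀ m i, m < M i → res m (f i) = v m (r (rw' i)) (ty i) := by
    intro m i hmi
    exact (hrj i).2.2.2.2.2 m (mem_range.2 hmi) _ (hmem (by have := hrwi i; omega)) _
  have hresr : ∀ m k, m < M k → ∀ a, v m (r k) a = vs m a := by
    intro m k hmk a
    exact (hrj k).1.2.2.2 m (mem_range.2 hmk) a
  have hvne : ∀ m, (m + 1).Prime → ∀ r, Row U V P r → ∀ a, v m r a ≠ 0 := by
    intro m hp r hr a
    obtain ⟨j', h1, h2⟩ := ((hv m r a).and (hr.prim a)).exists
    rw [← h1]
    exact res_ne hp h2.2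
  have hvsne : ∀ m, (m + 1).Prime → ∀ a, vs m a ≠ 0 := by
    intro m hp a
    obtain ⟨r', h1, h2⟩ := ((hvs m a).and h.row).exists
    rw [← h1]
    exact hvne m hp _ h2 _
  -- the local conditions
  have hadm' : ∀ p : ℕ, p.Prime → ∃ x : ℕ, ∀ i, ¬ (p : ℤ) ∣ (f i).1 * x + (f i).2 := by
    intro p hp
    obtain ⟨m, rfl⟩ : ∃ m, p = m + 1 := ⟨p - 1, by have := hp.pos; omega⟩
    obtain ⟨y, hy⟩ : ∃ y : ZMod (m + 1), ∀ i, (res m (f i)).1 * y + (res m (f i)).2 ≠ 0 := by
      rcases Nat.lt_or_ge m n with hmn | hmn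
      · obtain ⟨c, hc⟩ := h.adm (m + 1) hp (by omega)
        refine ⟨(c : ZMod (m + 1)), fun i => ?_⟩
        rw [hres m i (by simp only [hM]; omega), hresr m _ (by simp only [hM]; omega)]
        obtain ⟨r', h1, h2⟩ := ((hvs m (ty i)).and hc).exists
        obtain ⟨j', h3, h4⟩ := ((hv m r' (ty i)).and (h2 (ty i))).exists
        rw [← h1, ← h3]
        intro h5
        apply h4
        rw [← ZMod.intCast_zmod_eq_zero_iff_dvd]
        push_cast
        exact h5
      · set κ := (m - n) / (n + 1) with hκ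
        set D : Finset (ZMod (m + 1) × ZMod (m + 1)) :=
          ((range κ).image (fun i => res m (f i))) ∪
            (((range κ ×ˢ univ).image (fun q : ℕ × Fin n => v m (r q.1) q.2)) ∪
              univ.image (vs m)) with hD
        obtain ⟨y, hy⟩ := avoid hp D (by
          have h1 : κ * (n + 1) ≤ m - n := Nat.div_mul_le_self _ _
          have h2 : ((range κ).image (fun i => res m (f i))).card ≤ κ := by
            refine card_image_le.trans ?_
            rw [card_range]
          have h3 : ((range κ ×ˢ univ).image (fun q : ℕ × Fin n => v m (r q.1) q.2)).card ≤ κ * n := by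
            refine card_image_le.trans ?_
            rw [card_product, card_range, card_univ, Fintype.card_fin]
          have h4 : (univ.image (vs m)).card ≤ n := by
            refine card_image_le.trans ?_
            rw [card_univ, Fintype.card_fin]
          have h5 := card_union_le ((range κ).image (fun i => res m (f i)))
            (((range κ ×ˢ univ).image (fun q : ℕ × Fin n => v m (r q.1) q.2)) ∪ univ.image (vs m))
          have h6 := card_union_le ((range κ ×ˢ univ).image (fun q : ℕ × Fin n => v m (r q.1) q.2))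
            (univ.image (vs m))
          have h7 : κ * (n + 1) = κ + κ * n := by ring
          rw [hD]
          omega) (by
          intro d hd
          rw [hD, mem_union, mem_union, mem_image, mem_image, mem_image] at hd
          rcases hd with ⟨i, _, rfl⟩ | ⟨q, _, rfl⟩ | ⟨a, _, rfl⟩
          · exact res_ne hp (hprim i).2.2
          · exact hvne m hp _ (hrj _).1.2.1 _
          · exact hvsne m hp _)
        refine ⟨y, fun i => ?_⟩
        have hlt : ∀ i, κ ≤ i → m < M i := by
          intro i hi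
          have h1 : (m - n) < (i + 1) * (n + 1) := (Nat.div_lt_iff_lt_mul (by omega)).1 (by omega)
          simp only [hM]
          omega
        by_cases hi : i < κ
        · exact hy _ (by
            rw [hD]
            exact mem_union_left _ (mem_image_of_mem _ (mem_range.2 hi)))
        · rw [hres m i (hlt i (by omega))]
          by_cases hk : rw' i < κ
          · refine hy _ ?_
            rw [hD]
            refine mem_union_right _ (mem_union_left _ (mem_image.2 ⟨(rw' i, ty i), ?_, rfl⟩))
            simp [hk]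
          · rw [hresr m _ (hlt _ (by omega))]
            refine hy _ ?_
            rw [hD]
            exact mem_union_right _ (mem_union_right _ (mem_image_of_mem _ (mem_univ _)))
    exact ⟨y.val, fun i hi => res_dvd (hy i) hi⟩
  obtain ⟨I, hPR, hI⟩ := hcl n hn (fun i => (f i).1) (fun i => (f i).2) (fun i => (hprim i).2.1)
    (fun i => (hprim i).2.2) hfinj hadm'
  -- a set of kinds of rows which occurs infinitely often
  obtain ⟨S, hS, hSf⟩ : ∃ S : Finset (Fin n), n ≤ 400 * S.card ∧
      ∃ᶠ k in atTop, ∀ a ∈ S, ∃ᶠ w in atTop, hits off I (n * Nat.pair k w + (a : ℕ)) := by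
    by_contra hcon2
    have h1 : ∀ᶠ k in atTop, ∀ S : Finset (Fin n), n ≤ 400 * S.card →
        ¬ ∀ a ∈ S, ∃ᶠ w in atTop, hits off I (n * Nat.pair k w + (a : ℕ)) := by
      rw [Filter.eventually_all]
      intro S
      by_cases h : n ≤ 400 * S.card
      · have h2 : ¬ ∃ᶠ k in atTop, ∀ a ∈ S, ∃ᶠ w in atTop, hits off I (n * Nat.pair k w + (a : ℕ)) :=
          fun h3 => hcon2 ⟨S, h, h3⟩
        rw [Filter.not_frequently] at h2
        filter_upwards [h2] with β hβ _ using hβ
      · filter_upwards with β h3 using absurd h3 h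
    obtain ⟨k, hk1, hk2⟩ := (hPR.and_eventually h1).exists
    refine hk2 (univ.filter (fun a : Fin n => ∃ᶠ w in atTop, hits off I (n * Nat.pair k w + (a : ℕ))))
      ?_ (fun a ha => (mem_filter.1 ha).2)
    have h3 : (univ.filter (fun a : Fin n => ∃ᶠ w in atTop,
          hits off I (n * Nat.pair k w + (a : ℕ)))).map Fin.valEmbedding =
        (range n).filter (fun a => ∃ᶠ w in atTop, hits off I (n * Nat.pair k w + a)) := by
      ext a
      simp only [Finset.mem_map, mem_filter, mem_univ, true_and, mem_range, Fin.valEmbedding_apply]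
      constructor
      · rintro ⟨b, hb, rfl⟩
        exact ⟨b.2, hb⟩
      · rintro ⟨ha, hb⟩
        exact ⟨⟨a, ha⟩, hb, rfl⟩
    rw [← card_map Fin.valEmbedding, h3]
    exact hk1
  obtain ⟨α, hα⟩ := hcon S hS
  -- descent
  have key : ∀ ρ : Ordinal.{0}, ∀ (R : Finset ι) (F : Finset (ι × ι × Fin n)) (N : ℕ),
      Bad U (Gd V Q P) S ρ R F →
      (∀ g ∈ R, ∃ k < N, (∀ a ∈ S, ∃ᶠ w in atTop, hits off I (n * Nat.pair k w + (a : ℕ))) ∧
        g = r k) →
      (∀ g ∈ F, ∃ i ∈ I, i < N ∧ g = (j i, r (rw' i), ty i)) → False := by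
    intro ρ
    induction ρ using WellFoundedLT.induction with
    | ind ρ ih =>
      intro R F N hB hR hF
      by_cases hmin : ∃ ρ' < ρ, Bad U (Gd V Q P) S ρ' R F
      · obtain ⟨ρ', h1, h2⟩ := hmin
        exact ih ρ' h1 R F N h2 hR hF
      · push Not at hmin
        have hG : Gd V Q P R F := by
          intro T hT
          refine (hI ((F.image fun q => P q.1 q.2.1 q.2.2) ∪ T) ?_).mono ?_
          · intro g hg
            rcases mem_union.1 hg with h | h
            · obtain ⟨q, hq, rfl⟩ := mem_image.1 h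
              obtain ⟨i, _, _, rfl⟩ := hF q hq
              exact (hprim i).2.1
            · exact (hT g h).1
          · intro x hx
            refine ⟨fun q hq => ?_, fun t ht hp => ?_⟩
            · obtain ⟨i, hi, _, hqi⟩ := hF q hq
              refine (hx _ (mem_union_left _ (mem_image_of_mem _ hq))).2 ⟨i, hi, ?_⟩
              rw [hqi]
            · obtain ⟨i, hi, hti⟩ := (hx t (mem_union_right _ ht)).1 hp
              rcases (hT t ht).2 _ _ _ (hprim i).1 hti with ⟨q, hq, hqj⟩ | ⟨r', hr', hrj''⟩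
              · refine ⟨q, hq, ?_⟩
                obtain ⟨i', _, _, rfl⟩ := hF q hq
                have h1 : i' = i := hjinj _ _ hqj
                rw [h1]
                exact hti
              · obtain ⟨k, _, _, rfl⟩ := hR r' hr'
                exact absurd hrj'' (hrj' k i)
        have hRp : ∀ i, N ≤ i → R ∈ ((range i).image r).powerset := by
          intro i hi
          rw [mem_powerset]
          intro g hg
          obtain ⟨k, hk, _, rfl⟩ := hR g hg
          exact hmem (by omega)
        have hFp : ∀ i i', N ≤ i → N ≤ i' →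
            F ∈ (((range i).image j) ×ˢ ((range i').image r) ×ˢ (univ : Finset (Fin n))).powerset := by
          intro i i' hi hi'
          rw [mem_powerset]
          intro g hg
          obtain ⟨k, _, hk, rfl⟩ := hF g hg
          simp only [Finset.mem_product, Finset.mem_univ, and_true]
          exact ⟨hmem2 (by omega), hmem (by have := hrwi k; omega)⟩
        rcases hs S R F ρ hB hmin hG with ⟨hr', ha, hX⟩ | hX
        · obtain ⟨k, hkN, hk, hrk⟩ := hR _ hr'
          obtain ⟨w, hwN, hw⟩ := (Filter.frequently_atTop.1 (hk _ ha)) N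
          obtain ⟨i, hi, hiI⟩ := hw
          rw [mem_Ico] at hi
          have hNi : N ≤ i := by
            have h1 : n * Nat.pair k w + (sa S R F : ℕ) ≤ off (n * Nat.pair k w + (sa S R F : ℕ)) :=
              hoff.id_le _
            have h2 : Nat.pair k w ≤ n * Nat.pair k w := Nat.le_mul_of_pos_left _ hn
            have h3 : w ≤ Nat.pair k w := Nat.right_le_pair k w
            omega
          have hbi : blk i = n * Nat.pair k w + (sa S R F : ℕ) :=
            blocks_unique hoff (hblk1 i) (hblk2 i) hi.1 hi.2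
          have hrwi' : rw' i = k := by
            simp only [hrw, hbi]
            rw [Nat.mul_add_div hn, Nat.div_eq_of_lt (sa S R F).2, add_zero, Nat.unpair_pair]
          have htyi : ty i = sa S R F := by
            apply Fin.ext
            simp only [hty, hbi]
            rw [Nat.mul_add_mod, Nat.mod_eq_of_lt (sa S R F).2]
          have hjX : j i ∈ sX S R F := (hrj i).2.1 S R (hRp _ (by omega)) F (hFp _ _ hNi (by omega))
          obtain ⟨ρ', hρ', hB'⟩ := hX _ hjX
          refine ih ρ' hρ' _ _ (i + 1) hB' ?_ ?_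
          · intro g hg
            obtain ⟨k', h1, h2, h3⟩ := hR g hg
            exact ⟨k', by omega, h2, h3⟩
          · intro g hg
            rcases mem_insert.1 hg with rfl | hg
            · refine ⟨i, hiI, by omega, ?_⟩
              rw [hrwi', htyi, hrk]
            · obtain ⟨i', h1, h2, h3⟩ := hF g hg
              exact ⟨i', h1, by omega, h3⟩
        · obtain ⟨k, hkN, hk⟩ := (Filter.frequently_atTop.1 hSf) N
          have hrX : r k ∈ sX S R F := (hrj k).1.1 S R (hRp _ hkN) F (hFp _ _ hkN hkN)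
          obtain ⟨ρ', hρ', hB'⟩ := hX _ hrX
          refine ih ρ' hρ' _ _ (k + 1) hB' ?_ ?_
          · intro g hg
            rcases mem_insert.1 hg with rfl | hg
            · exact ⟨k, by omega, hk, rfl⟩
            · obtain ⟨k', h1, h2, h3⟩ := hR g hg
              exact ⟨k', by omega, h2, h3⟩
          · intro g hg
            obtain ⟨i', h1, h2, h3⟩ := hF g hg
            exact ⟨i', h1, by omega, h3⟩
  exact key α ∅ ∅ 0 hα (by simp) (by simp)

end Pool.Agent.J6H17.TA
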