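import Mathlib
import Pool.Agent.J6H17.TA.Core

/-! One infinite exact pattern for infinitely many families of linear forms. -/

set_option autoImplicit false

namespace Pool.Agent.J6H17.TA

open Finset Filter Topology MeasureTheory
open Pool.Agent.H361R2.Inf
open Pool.Agent.N790.IA (hits avoid blocks blocks_unique)

open Classical in
/-- a set of rows of positive upper density is hit infinitely often -/
def PD (off : ℕ → ℕ) (I : Set ℕ) : Prop :=
  ∃ᶠ M in atTop, M ≤ 401 * ((range M).filter
    (fun k => ∃ᶠ w in atTop, hits off I (Nat.pair k w))).card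

open Classical in
theorem hcombD (off : ℕ → ℕ) :
    ∀ (m : Set ℕ → ℝ), FMeas m → m Set.univ ≤ 2 → ∀ (E : ℕ → Set ℕ),
      (∀ t, (1 / 200 : ℝ) ≤ m {x | ∃ i ∈ Ico (off t) (off (t + 1)), x ∈ E i}) →
      ∃ I : Set ℕ, PD off I ∧ ∀ N : ℕ, 0 < m {x | ∀ i < N, (x ∈ E i ↔ i ∈ I)} := by
  intro m hm hm2 E hE
  set μ : Measure ℝ := volume.restrict (Set.Ico 0 (m Set.univ)) with hμ
  have hfin : IsFiniteMeasure μ := ⟨by
    rw [hμ, Measure.restrict_apply_univ, Real.volume_Ico]
    exact ENNReal.ofReal_lt_top⟩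
  have huniv : μ Set.univ ≤ 2 := by
    rw [hμ, Measure.restrict_apply_univ, Real.volume_Ico]
    refine (ENNReal.ofReal_le_ofReal (show m Set.univ - 0 ≤ 2 by linarith)).trans ?_
    rw [ENNReal.ofReal_ofNat]
  -- the classes
  set A : ℕ → Set ℝ := fun t => {x | hits off (pat m E x) t} with hA
  have hAm : ∀ t, MeasurableSet (A t) := by
    intro t
    have h : A t = ⋃ i ∈ Ico (off t) (off (t + 1)), Ev m E i := by
      ext x
      simp only [hA, hits, pat, Set.mem_ofPred_eq, Set.mem_iUnion, exists_prop]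
    rw [h]
    exact Finset.measurableSet_biUnion _ fun i _ => measurable_Ev i
  have hAc : ∀ t, ENNReal.ofReal (1 / 200) ≤ μ (A t) := by
    intro t
    have h1 := m_le_volume (E := E) hm (off (t + 1)) {I | hits off I t} (by
      intro I I' h
      simp only [Set.mem_ofPred_eq, hits]
      constructor
      · rintro ⟨i, hi, h2⟩
        exact ⟨i, hi, (h i (Finset.mem_Ico.1 hi).2).1 h2⟩
      · rintro ⟨i, hi, h2⟩
        exact ⟨i, hi, (h i (Finset.mem_Ico.1 hi).2).2 h2⟩)
    have h2 : {x | {i | x ∈ E i} ∈ {I : Set ℕ | hits off I t}} =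
        {x | ∃ i ∈ Ico (off t) (off (t + 1)), x ∈ E i} := by
      ext x
      simp only [hits, Set.mem_ofPred_eq]
    rw [h2] at h1
    refine (ENNReal.ofReal_le_ofReal (hE t)).trans (h1.trans ?_)
    rw [hμ, Measure.restrict_apply (hAm t)]
    apply measure_mono
    rintro x ⟨hx1, hx2⟩
    exact ⟨hx2, hx1⟩
  -- the rows
  set L : ℕ → Set ℝ := fun k => {x | ∃ᶠ w in atTop, x ∈ A (Nat.pair k w)} with hL
  have hLL : ∀ k, MeasurableSet (L k) ∧ ENNReal.ofReal (1 / 200) ≤ μ (L k) := by
    intro k
    exact limsup_ge (fun w => A (Nat.pair k w)) (fun w => hAm _) _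
      (Filter.Eventually.frequently (Filter.Eventually.of_forall fun w => hAc _))
  -- the densities
  set G : ℕ → Set ℝ := fun M => {x | M ≤ 401 * ((range M).filter (fun k => x ∈ L k)).card} with hG
  have hGm : ∀ M, MeasurableSet (G M) := by
    intro M
    have h : G M = ⋃ S ∈ (range M).powerset.filter (fun S => M ≤ 401 * S.card), ⋂ k ∈ S, L k := by
      ext x
      simp only [hG, Set.mem_ofPred_eq, Set.mem_iUnion, exists_prop, Set.mem_iInter,
        Finset.mem_filter, Finset.mem_powerset]
      constructor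
      · intro h
        exact ⟨_, ⟨Finset.filter_subset _ _, h⟩, fun a ha => (Finset.mem_filter.1 ha).2⟩
      · rintro ⟨S, ⟨h1, h2⟩, h3⟩
        refine h2.trans (Nat.mul_le_mul_left _ (Finset.card_le_card ?_))
        intro a ha
        exact Finset.mem_filter.2 ⟨h1 ha, h3 a ha⟩
    rw [h]
    exact Finset.measurableSet_biUnion _ fun S _ =>
      Finset.measurableSet_biInter _ fun a _ => (hLL a).1
  have hGc : ∀ M, 1 ≤ M → ENNReal.ofReal (1 / 80200) ≤ μ (G M) := by
    intro M hM
    have hMr : (1 : ℝ) ≤ M := by exact_mod_cast hM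
    have h1 : ∑ a ∈ range M, μ (L a) ≤ M * μ (G M) + ((M / 401 : ℕ) : ENNReal) * μ Set.univ := by
      calc ∑ a ∈ range M, μ (L a) = ∑ a ∈ range M, ∫⁻ x, (L a).indicator 1 x ∂μ := by
            refine Finset.sum_congr rfl fun a _ => ?_
            rw [lintegral_indicator_one (hLL a).1]
        _ = ∫⁻ x, ∑ a ∈ range M, (L a).indicator 1 x ∂μ := by
            rw [lintegral_finsetSum]
            intro a _
            exact measurable_one.indicator (hLL a).1
        _ ≤ ∫⁻ x, ((M : ENNReal) * (G M).indicator 1 x + ((M / 401 : ℕ) : ENNReal)) ∂μ := by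
            apply lintegral_mono
            intro x
            beta_reduce
            have h2 : ∑ a ∈ range M, (L a).indicator (1 : ℝ → ENNReal) x =
                (((range M).filter (fun a => x ∈ L a)).card : ENNReal) := by
              rw [Finset.card_filter, Nat.cast_sum]
              refine Finset.sum_congr rfl fun a _ => ?_
              by_cases h3 : x ∈ L a
              · rw [Set.indicator_of_mem h3, if_pos h3]
                simp
              · rw [Set.indicator_of_notMem h3, if_neg h3]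
                simp
            rw [h2]
            by_cases h3 : x ∈ G M
            · rw [Set.indicator_of_mem h3]
              refine le_trans ?_ (le_self_add)
              rw [Pi.one_apply, mul_one]
              exact_mod_cast (Finset.card_filter_le _ _).trans (by rw [Finset.card_range])
            · rw [Set.indicator_of_notMem h3, mul_zero, zero_add]
              have h4 : ¬ M ≤ 401 * ((range M).filter (fun a => x ∈ L a)).card := h3
              exact_mod_cast (Nat.le_div_iff_mul_le (by norm_num)).2 (by omega)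
        _ = M * μ (G M) + ((M / 401 : ℕ) : ENNReal) * μ Set.univ := by
            rw [lintegral_add_right _ measurable_const, lintegral_const_mul, lintegral_indicator_one (hGm M),
              lintegral_const]
            exact measurable_one.indicator (hGm M)
    have h2 : (M : ENNReal) * ENNReal.ofReal (1 / 200) ≤
        M * μ (G M) + ((M / 401 : ℕ) : ENNReal) * 2 := by
      calc (M : ENNReal) * ENNReal.ofReal (1 / 200) = ∑ a ∈ range M, ENNReal.ofReal (1 / 200) := by
            rw [Finset.sum_const, Finset.card_range, nsmul_eq_mul]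
        _ ≤ ∑ a ∈ range M, μ (L a) := Finset.sum_le_sum fun a _ => (hLL a).2
        _ ≤ _ := h1.trans (add_le_add_right (mul_le_mul_right huniv _) _)
    have hGne : μ (G M) ≠ ⊤ := measure_ne_top _ _
    have h3 := ENNReal.toReal_mono (by finiteness) h2
    rw [ENNReal.toReal_mul, ENNReal.toReal_natCast, ENNReal.toReal_ofReal (by norm_num),
      ENNReal.toReal_add (by finiteness) (by finiteness), ENNReal.toReal_mul, ENNReal.toReal_mul,
      ENNReal.toReal_natCast, ENNReal.toReal_natCast, ENNReal.toReal_ofNat] at h3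
    have hfl : ((M / 401 : ℕ) : ℝ) ≤ (M : ℝ) / 401 := by
      have h5 : M / 401 * 401 ≤ M := Nat.div_mul_le_self _ _
      have h6 : ((M / 401 : ℕ) : ℝ) * 401 ≤ M := by exact_mod_cast h5
      rw [le_div_iff₀ (by norm_num)]
      exact h6
    rw [← ENNReal.ofReal_toReal hGne]
    apply ENNReal.ofReal_le_ofReal
    by_contra hlt
    push Not at hlt
    have h7 : (M : ℝ) * (μ (G M)).toReal < M * (1 / 80200) := by
      apply mul_lt_mul_of_pos_left hlt
      linarith
    linarith
  obtain ⟨-, hlim⟩ := limsup_ge G hGm (ENNReal.ofReal (1 / 80200)) (by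
    refine Filter.Eventually.frequently ?_
    filter_upwards [Filter.eventually_ge_atTop 1] with M hM using hGc M hM)
  have hpos : 0 < μ {x | ∃ᶠ k in atTop, x ∈ G k} :=
    lt_of_lt_of_le (ENNReal.ofReal_pos.2 (by norm_num)) hlim
  obtain ⟨x, hx1, hx2⟩ : ∃ x ∈ Set.Ico 0 (m Set.univ), ∃ᶠ k in atTop, x ∈ G k := by
    by_contra hcon
    push Not at hcon
    refine hpos.ne' ?_
    rw [hμ, Measure.restrict_apply' measurableSet_Ico]
    have h : {x | ∃ᶠ k in atTop, x ∈ G k} ∩ Set.Ico 0 (m Set.univ) = ∅ := by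
      rw [Set.eq_empty_iff_forall_notMem]
      rintro x ⟨hx1, hx2⟩
      exact hx1 (hcon x hx2)
    rw [h, measure_empty]
  exact ⟨pat m E x, hx2, fun N => cyl_pos hm hx1 N⟩

/-- the pattern theorem with density -/
theorem rowPatternD : ∃ off : ℕ → ℕ, StrictMono off ∧ off 0 = 0 ∧
    ∀ (A B : ℕ → ℤ), (∀ i, 1 ≤ A i) → (∀ i, IsCoprime (A i) (B i)) →
      Function.Injective (fun i => (A i, B i)) →
      (∀ p : ℕ, p.Prime → ∃ x : ℕ, ∀ i, ¬ (p : ℤ) ∣ A i * x + B i) →
      ∃ I : Set ℕ, PD off I ∧ ∀ T : Finset (ℤ × ℤ), (∀ f ∈ T, 1 ≤ f.1) →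
        {x : ℕ | ∀ f ∈ T, (Nat.Prime (f.1 * x + f.2).toNat ↔ ∃ i ∈ I, f = (A i, B i))}.Infinite := by
  obtain ⟨off, hoff, h0, hBM⟩ := exists_blockMeas
  refine ⟨off, hoff, h0, fun A B hA hcop hinj hadm => ?_⟩
  refine exact_seq_of (PD off) off ?_ A B hA hcop hinj hadm
  intro A B hA hne W r hW hWp hc hcop
  exact inf_class_of_combP (PD off) off hoff h0 (1 / 200) (by norm_num) (hcombD off) hBM
    A B hA hne W r hW hWp hc hcop

section

variable {ι : Type} {n : ℕ} [DecidableEq ι] {U : Ultrafilter ι} {V Q : ι → ι → Prop}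
  {P : ι → ι → Fin n → ℤ × ℤ}

/-- generic sequences of rows and columns -/
theorem genSeq (h : Arr U V Q P) (rw' : ℕ → ℕ) (hrwi : ∀ i, rw' i ≤ i)
    (ty : ℕ → Fin n) (Φ' Ψ' : ℕ → Finset ι → Finset ι → Set ι)
    (hΦ' : ∀ i A B, ∀ᶠ r in (U : Filter ι), r ∈ Φ' i A B)
    (hΨ' : ∀ i A B, ∀ᶠ j in (U : Filter ι), j ∈ Ψ' i A B) :
    ∃ r j : ℕ → ι, (∀ i, r i ∈ Φ' i ((range i).image r) ((range i).image j) ∧
        j i ∈ Ψ' i ((range (i + 1)).image r) ((range i).image j)) ∧
      (∀ i, V (j i) (r (rw' i)) ∧ 1 ≤ (P (j i) (r (rw' i)) (ty i)).1 ∧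
        IsCoprime (P (j i) (r (rw' i)) (ty i)).1 (P (j i) (r (rw' i)) (ty i)).2) ∧
      Function.Injective (fun i => P (j i) (r (rw' i)) (ty i)) ∧
      ∀ p : ℕ, p.Prime → ∃ x : ℕ, ∀ i, ¬ (p : ℤ) ∣
        (P (j i) (r (rw' i)) (ty i)).1 * x + (P (j i) (r (rw' i)) (ty i)).2 := by
  classical
  choose v hv using fun (m : ℕ) (r : ι) (a : Fin n) => lim_val U (fun j => res m (P j r a))
  choose vs hvs using fun (m : ℕ) (a : Fin n) => lim_val U (fun r => v m r a)
  set M : ℕ → ℕ := fun i => n + (i + 1) * (n + 1) with hM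
  obtain ⟨r, j, hrj⟩ := diag2 U
    (fun i A B => {r | r ∈ Φ' i A B ∧ Row U V P r ∧ ∀ m ∈ range (M i), ∀ a, v m r a = vs m a})
    (fun i A B => {j | j ∈ Ψ' i A B ∧ (∀ r ∈ A, Row U V P r →
        V j r ∧ ∀ a, 1 ≤ (P j r a).1 ∧ IsCoprime (P j r a).1 (P j r a).2) ∧
      (∀ r ∈ A, Row U V P r → ∀ a, ∀ q ∈ (B ×ˢ A ×ˢ univ : Finset (ι × ι × Fin n)),
        P j r a ≠ P q.1 q.2.1 q.2.2) ∧
      ∀ m ∈ range (M i), ∀ r ∈ A, ∀ a, res m (P j r a) = v m r a})
    (by
      intro i A B
      refine Filter.Eventually.and (hΦ' i A B) (Filter.Eventually.and h.row ?_)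
      rw [Filter.eventually_all_finset]
      intro m _
      rw [Filter.eventually_all]
      intro a
      exact hvs m a)
    (by
      intro i A B
      refine Filter.Eventually.and (hΨ' i A B) (Filter.Eventually.and ?_ (Filter.Eventually.and ?_ ?_))
      · rw [Filter.eventually_all_finset]
        intro r _
        by_cases hr : Row U V P r
        · have h1 : ∀ᶠ j in (U : Filter ι), ∀ a,
              1 ≤ (P j r a).1 ∧ IsCoprime (P j r a).1 (P j r a).2 := by
            rw [Filter.eventually_all]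
            intro a
            exact hr.prim a
          filter_upwards [hr.val, h1] with j h2 h3 _ using ⟨h2, h3⟩
        · filter_upwards with j h2 using absurd h2 hr
      · rw [Filter.eventually_all_finset]
        intro r _
        by_cases hr : Row U V P r
        · have h1 : ∀ᶠ j in (U : Filter ι), ∀ a,
              ∀ q ∈ (B ×ˢ A ×ˢ univ : Finset (ι × ι × Fin n)), P j r a ≠ P q.1 q.2.1 q.2.2 := by
            rw [Filter.eventually_all]
            intro a
            rw [Filter.eventually_all_finset]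
            intro q _
            exact hr.esc a _
          filter_upwards [h1] with j h2 _ using h2
        · filter_upwards with j h2 using absurd h2 hr
      · rw [Filter.eventually_all_finset]
        intro m _
        rw [Filter.eventually_all_finset]
        intro r _
        rw [Filter.eventually_all]
        intro a
        exact hv m r a)
  set f : ℕ → ℤ × ℤ := fun i => P (j i) (r (rw' i)) (ty i) with hf
  have hmem : ∀ {k i : ℕ}, k < i → r k ∈ (range i).image r := fun hk =>
    mem_image_of_mem _ (mem_range.2 hk)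
  have hmem2 : ∀ {k i : ℕ}, k < i → j k ∈ (range i).image j := fun hk =>
    mem_image_of_mem _ (mem_range.2 hk)
  have hne : ∀ i' i, i' < i → f i ≠ f i' := by
    intro i' i hi
    refine (hrj i).2.2.2.1 (r (rw' i)) (hmem (by have := hrwi i; omega)) (hrj _).1.2.1 (ty i)
      (j i', r (rw' i'), ty i') ?_
    simp only [Finset.mem_product, Finset.mem_univ, and_true]
    exact ⟨hmem2 hi, hmem (by have := hrwi i'; omega)⟩
  have hfinj : Function.Injective f := by
    intro i i' he
    rcases lt_trichotomy i i' with h1 | h1 | h1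
    · exact absurd he.symm (hne _ _ h1)
    · exact h1
    · exact absurd he (hne _ _ h1)
  have hprim : ∀ i, V (j i) (r (rw' i)) ∧ 1 ≤ (f i).1 ∧ IsCoprime (f i).1 (f i).2 := by
    intro i
    have h1 := (hrj i).2.2.1 (r (rw' i)) (hmem (by have := hrwi i; omega)) (hrj _).1.2.1
    exact ⟨h1.1, h1.2 (ty i)⟩
  have hres : ∀ m i, m < M i → res m (f i) = v m (r (rw' i)) (ty i) := by
    intro m i hmi
    exact (hrj i).2.2.2.2 m (mem_range.2 hmi) _ (hmem (by have := hrwi i; omega)) _
  have hresr : ∀ m k, m < M k → ∀ a, v m (r k) a = vs m a := by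
    intro m k hmk a
    exact (hrj k).1.2.2 m (mem_range.2 hmk) a
  have hvne : ∀ m, (m + 1).Prime → ∀ r, Row U V P r → ∀ a, v m r a ≠ 0 := by
    intro m hp r hr a
    obtain ⟨j', h1, h2⟩ := ((hv m r a).and (hr.prim a)).exists
    rw [← h1]
    exact res_ne hp h2.2
  have hvsne : ∀ m, (m + 1).Prime → ∀ a, vs m a ≠ 0 := by
    intro m hp a
    obtain ⟨r', h1, h2⟩ := ((hvs m a).and h.row).exists
    rw [← h1]
    exact hvne m hp _ h2 _
  refine ⟨r, j, fun i => ⟨(hrj i).1.1, (hrj i).2.1⟩, hprim, hfinj, ?_⟩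
  intro p hp
  obtain ⟨m, rfl⟩ : ∃ m, p = m + 1 := ⟨p - 1, by have := hp.pos; omega⟩
  obtain ⟨y, hy⟩ : ∃ y : ZMod (m + 1), ∀ i, (res m (f i)).1 * y + (res m (f i)).2 ≠ 0 := by
    rcases Nat.lt_or_ge m n with hmn | hmn
    · obtain ⟨c, hc⟩ := h.adm (m + 1) hp (by omega)
      refine ⟨(c : ZMod (m + 1)), fun i => ?_⟩
      rw [hres m i (by simp only [hM]; omega), hresr m _ (by simp only [hM]; omega)]
      obtain ⟨r', h1, h2⟩ := ((hvs m (ty i)).and hc).exists
      obtain ⟨j', h3, h4⟩ := ((hv m r' (ty i)).and (h2 (ty i))).exists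
      rw [← h1, ← h3]
      intro h5
      apply h4
      rw [← ZMod.intCast_zmod_eq_zero_iff_dvd]
      push_cast
      exact h5
    · set κ := (m - n) / (n + 1) with hκ
      set D : Finset (ZMod (m + 1) × ZMod (m + 1)) :=
        ((range κ).image (fun i => res m (f i))) ∪
          (((range κ ×ˢ univ).image (fun q : ℕ × Fin n => v m (r q.1) q.2)) ∪
            univ.image (vs m)) with hD
      obtain ⟨y, hy⟩ := avoid hp D (by
        have h1 : κ * (n + 1) ≤ m - n := Nat.div_mul_le_self _ _
        have h2 : ((range κ).image (fun i => res m (f i))).card ≤ κ := by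
          refine card_image_le.trans ?_
          rw [card_range]
        have h3 : ((range κ ×ˢ univ).image (fun q : ℕ × Fin n => v m (r q.1) q.2)).card ≤ κ * n := by
          refine card_image_le.trans ?_
          rw [card_product, card_range, card_univ, Fintype.card_fin]
        have h4 : (univ.image (vs m)).card ≤ n := by
          refine card_image_le.trans ?_
          rw [card_univ, Fintype.card_fin]
        have h5 := card_union_le ((range κ).image (fun i => res m (f i)))
          (((range κ ×ˢ univ).image (fun q : ℕ × Fin n => v m (r q.1) q.2)) ∪ univ.image (vs m))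
        have h6 := card_union_le ((range κ ×ˢ univ).image (fun q : ℕ × Fin n => v m (r q.1) q.2))
          (univ.image (vs m))
        have h7 : κ * (n + 1) = κ + κ * n := by ring
        rw [hD]
        omega) (by
        intro d hd
        rw [hD, mem_union, mem_union, mem_image, mem_image, mem_image] at hd
        rcases hd with ⟨i, _, rfl⟩ | ⟨q, _, rfl⟩ | ⟨a, _, rfl⟩
        · exact res_ne hp (hprim i).2.2
        · exact hvne m hp _ (hrj _).1.2.1 _
        · exact hvsne m hp _)
      refine ⟨y, fun i => ?_⟩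
      have hlt : ∀ i, κ ≤ i → m < M i := by
        intro i hi
        have h1 : (m - n) < (i + 1) * (n + 1) := (Nat.div_lt_iff_lt_mul (by omega)).1 (by omega)
        simp only [hM]
        omega
      by_cases hi : i < κ
      · exact hy _ (by
          rw [hD]
          exact mem_union_left _ (mem_image_of_mem _ (mem_range.2 hi)))
      · rw [hres m i (hlt i (by omega))]
        by_cases hk : rw' i < κ
        · refine hy _ ?_
          rw [hD]
          refine mem_union_right _ (mem_union_left _ (mem_image.2 ⟨(rw' i, ty i), ?_, rfl⟩))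
          simp [hk]
        · rw [hresr m _ (hlt _ (by omega))]
          refine hy _ ?_
          rw [hD]
          exact mem_union_right _ (mem_union_right _ (mem_image_of_mem _ (mem_univ _)))
  exact ⟨y.val, fun i hi => res_dvd (hy i) hi⟩

end

/-- choosing different elements of infinite sets -/
theorem exists_inj {α : Type} (F : ℕ → Set α) (hF : ∀ i, (F i).Infinite) :
    ∃ f : ℕ → α, Function.Injective f ∧ ∀ i, f i ∈ F i := by
  classical
  have step : ∀ (i : ℕ) (S : Finset α), ∃ x ∈ F i, x ∉ S := fun i S =>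
    (hF i).exists_notMem_finset S
  choose g hg1 hg2 using step
  let Q : ℕ → Finset α := fun i => Nat.rec ∅ (fun i S => insert (g i S) S) i
  have hQs : ∀ i, Q (i + 1) = insert (g i (Q i)) (Q i) := fun i => rfl
  have hmono : ∀ i i', i ≤ i' → Q i ⊆ Q i' := by
    intro i i' h
    induction i', h using Nat.le_induction with
    | base => exact Finset.Subset.refl _
    | succ i' _ ih => rw [hQs]; exact ih.trans (subset_insert _ _)
  have hne : ∀ i' i, i' < i → g i (Q i) ≠ g i' (Q i') := by
    intro i' i h he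
    apply hg2 i (Q i)
    rw [he]
    exact hmono (i' + 1) i h (by rw [hQs]; exact mem_insert_self _ _)
  refine ⟨fun i => g i (Q i), fun i i' he => ?_, fun i => hg1 i _⟩
  rcases lt_trichotomy i i' with h1 | h1 | h1
  · exact absurd he.symm (hne _ _ h1)
  · exact h1
  · exact absurd he (hne _ _ h1)

open Classical in
/-- **one infinite exact pattern for infinitely many families of linear forms** -/
theorem families (F : ℕ → Set (ℤ × ℤ)) (hinf : ∀ k, (F k).Infinite)
    (hprim : ∀ k, ∀ f ∈ F k, 1 ≤ f.1 ∧ IsCoprime f.1 f.2) :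
    ∃ G : Set (ℤ × ℤ), G ⊆ (⋃ k, F k) ∧ (∀ T : Finset (ℤ × ℤ), (∀ t ∈ T, 1 ≤ t.1) →
        {x : ℕ | ∀ t ∈ T, (Nat.Prime (t.1 * x + t.2).toNat ↔ t ∈ G)}.Infinite) ∧
      (∃ᶠ k in atTop, (G ∩ F k).Infinite) ∧
      ((∀ p : ℕ, p.Prime → ∃ c : ℤ, ∀ k, ∀ f ∈ F k, ¬ (p : ℤ) ∣ f.1 * c + f.2) →
        ∃ᶠ M in atTop, M ≤ 401 * ((range M).filter (fun k => (G ∩ F k).Infinite)).card) := by
  -- classes of one row which are hit
  have hrow : ∀ (off : ℕ → ℕ) (_ : StrictMono off) (blk : ℕ → ℕ)
      (_ : ∀ i, off (blk i) ≤ i ∧ i < off (blk i + 1)) (f : ℕ → ℤ × ℤ)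
      (_ : Function.Injective f) (I : Set ℕ) (k : ℕ) (K : Set (ℤ × ℤ))
      (_ : ∀ i, (Nat.unpair (blk i)).1 = k → f i ∈ K)
      (_ : ∃ᶠ w in atTop, hits off I (Nat.pair k w)), ((f '' I) ∩ K).Infinite := by
    intro off hoff blk hblk f hf I k K hK hw
    have h1 : {i ∈ I | (Nat.unpair (blk i)).1 = k}.Infinite := by
      rw [← Nat.frequently_atTop_iff_infinite]
      rw [Filter.frequently_atTop] at hw ⊢
      intro N
      obtain ⟨w, hwN, i, hi, hiI⟩ := hw N
      rw [mem_Ico] at hi
      have h2 : blk i = Nat.pair k w := blocks_unique hoff (hblk i).1 (hblk i).2 hi.1 hi.2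
      refine ⟨i, ?_, hiI, ?_⟩
      · have h3 : Nat.pair k w ≤ off (Nat.pair k w) := hoff.id_le _
        have h4 : w ≤ Nat.pair k w := Nat.right_le_pair k w
        omega
      · rw [h2, Nat.unpair_pair]
    refine (h1.image hf.injOn).mono ?_
    rintro _ ⟨i, ⟨hi, hik⟩, rfl⟩
    exact ⟨⟨i, hi, rfl⟩, hK i hik⟩
  by_cases hadm : ∀ p : ℕ, p.Prime → ∃ c : ℤ, ∀ k, ∀ f ∈ F k, ¬ (p : ℤ) ∣ f.1 * c + f.2
  · obtain ⟨off, hoff, h0, hcl⟩ := rowPatternD
    choose blk hblk1 hblk2 using blocks hoff h0
    obtain ⟨f, hf, hfF⟩ := exists_inj (fun i => F (Nat.unpair (blk i)).1) (fun i => hinf _)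
    obtain ⟨I, hPD, hI⟩ := hcl (fun i => (f i).1) (fun i => (f i).2)
      (fun i => (hprim _ _ (hfF i)).1) (fun i => (hprim _ _ (hfF i)).2) hf (by
        intro p hp
        obtain ⟨c, hc⟩ := hadm p hp
        have hp0 : (0 : ℤ) < p := by exact_mod_cast hp.pos
        refine ⟨(c % p).toNat, fun i hi => hc _ _ (hfF i) ?_⟩
        have h1 : (((c % p).toNat : ℕ) : ℤ) = c % p := Int.toNat_of_nonneg (Int.emod_nonneg _ hp0.ne')
        rw [h1] at hi
        have h2 : (f i).1 * c + (f i).2 = ((f i).1 * (c % p) + (f i).2) + p * ((f i).1 * (c / p)) := by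
          have := Int.emod_add_mul_ediv c p
          linear_combination (-(f i).1) * this
        rw [h2]
        exact dvd_add hi (Dvd.intro _ rfl))
    have hdens : ∃ᶠ M in atTop, M ≤ 401 * ((range M).filter (fun k => ((f '' I) ∩ F k).Infinite)).card := by
      refine hPD.mono fun M hM => hM.trans (Nat.mul_le_mul_left _ (card_le_card ?_))
      intro k hk
      rw [mem_filter] at hk ⊢
      exact ⟨hk.1, hrow off hoff blk (fun i => ⟨hblk1 i, hblk2 i⟩) f hf I k (F k)
        (fun i hi => by rw [← hi]; exact hfF i) hk.2⟩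
    refine ⟨f '' I, ?_, ?_, ?_, fun _ => hdens⟩
    · rintro _ ⟨i, _, rfl⟩
      exact Set.mem_iUnion.2 ⟨_, hfF i⟩
    · intro T hT
      refine (hI T hT).mono fun x hx t ht => (hx t ht).trans ?_
      constructor
      · rintro ⟨i, hi, h⟩
        exact ⟨i, hi, h.symm⟩
      · rintro ⟨i, hi, h⟩
        exact ⟨i, hi, h.symm⟩
    · by_contra hcon
      rw [Filter.not_frequently, Filter.eventually_atTop] at hcon
      obtain ⟨N, hN⟩ := hcon
      obtain ⟨M, hM1, hM2⟩ := (Filter.frequently_atTop.1 hdens) (401 * N + 1)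
      have h1 : ((range M).filter (fun k => ((f '' I) ∩ F k).Infinite)).card ≤ N := by
        rw [← card_range N]
        refine card_le_card fun k hk => ?_
        rw [mem_range]
        by_contra hk'
        exact hN k (by omega) (mem_filter.1 hk).2
      omega
  · -- the general case
    obtain ⟨off, hoff, h0, hcl⟩ := rowPattern
    choose blk hblk1 hblk2 using blocks hoff h0
    have hblk3 : ∀ i, blk i ≤ i := fun i => (hoff.id_le (blk i)).trans (hblk1 i)
    set U : Ultrafilter ℕ := Filter.hyperfilter ℕ with hU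
    have hUge : ∀ N : ℕ, ∀ᶠ i in (U : Filter ℕ), N ≤ i := fun N =>
      Nat.hyperfilter_le_atTop (Filter.eventually_ge_atTop N)
    set e : ∀ k, ℕ → ℤ × ℤ := fun k j => ((hinf k).natEmbedding _ j : ℤ × ℤ) with he
    have heinj : ∀ k, Function.Injective (e k) := fun k a b h =>
      ((hinf k).natEmbedding _).injective (Subtype.ext h)
    have heF : ∀ k j, e k j ∈ F k := fun k j => ((hinf k).natEmbedding _ j).2
    have hArr : Arr U (fun _ _ => True) (fun j j' : ℕ => j = j')
        (fun j r (_ : Fin 1) => e r j) := by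
      refine ⟨Filter.Eventually.of_forall fun r => ⟨Filter.Eventually.of_forall fun _ => trivial,
        fun _ => Filter.Eventually.of_forall fun j => hprim r _ (heF r j), fun _ t => ?_⟩, ?_, ?_⟩
      · by_cases h : ∃ j, e r j = t
        · obtain ⟨j, hj⟩ := h
          filter_upwards [hUge (j + 1)] with i hi h2
          have := heinj r (h2.trans hj.symm)
          omega
        · filter_upwards with i h2 using h ⟨i, h2⟩
      · intro j'
        filter_upwards [hUge (j' + 1)] with j hj
        exact ⟨by omega, by omega⟩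
      · intro p hp hp1
        exact absurd hp.two_le (by omega)
    obtain ⟨r, j, hrj, hpr, hfinj, hadm'⟩ := genSeq hArr (fun i => (Nat.unpair (blk i)).1)
      (fun i => (Nat.unpair_left_le _).trans (hblk3 i)) (fun _ => 0)
      (fun _ A _ => {r | r ∉ A}) (fun _ _ _ => Set.univ) (by
        intro i A _
        filter_upwards [hUge (A.sup id + 1)] with k hk hkA
        have : k ≤ A.sup id := Finset.le_sup (f := id) hkA
        omega) (by simp)
    have hrinj : Function.Injective r := by
      have h1 : ∀ k k', k < k' → r k' ≠ r k := by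
        intro k k' hk h2
        apply (hrj k').1
        rw [h2]
        exact mem_image_of_mem _ (mem_range.2 hk)
      intro k k' h2
      rcases lt_trichotomy k k' with h3 | h3 | h3
      · exact absurd h2.symm (h1 _ _ h3)
      · exact h3
      · exact absurd h2 (h1 _ _ h3)
    set f : ℕ → ℤ × ℤ := fun i => e (r (Nat.unpair (blk i)).1) (j i) with hf
    obtain ⟨I, hPR, hI⟩ := hcl 1 le_rfl (fun i => (f i).1) (fun i => (f i).2)
      (fun i => (hpr i).2.1) (fun i => (hpr i).2.2) hfinj hadm'
    have hfreq : ∃ᶠ k in atTop, (f '' I ∩ F (r k)).Infinite := by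
      refine hPR.mono fun k hk => ?_
      have h1 : ((range 1).filter
          (fun a => ∃ᶠ w in atTop, hits off I (1 * Nat.pair k w + a))).card ≠ 0 := by omega
      rw [Finset.card_ne_zero] at h1
      obtain ⟨a, ha⟩ := h1
      rw [mem_filter, mem_range] at ha
      obtain ⟨ha1, ha2⟩ := ha
      obtain rfl : a = 0 := by omega
      refine hrow off hoff blk (fun i => ⟨hblk1 i, hblk2 i⟩) f hfinj I k (F (r k)) ?_ ?_
      · intro i hi
        simp only [hf, hi]
        exact heF _ _
      · refine ha2.mono fun w hw => ?_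
        rwa [one_mul, add_zero] at hw
    refine ⟨f '' I, ?_, ?_, ?_, fun h => absurd h hadm⟩
    · rintro _ ⟨i, _, rfl⟩
      exact Set.mem_iUnion.2 ⟨_, heF _ _⟩
    · intro T hT
      refine (hI T hT).mono fun x hx t ht => (hx t ht).trans ?_
      constructor
      · rintro ⟨i, hi, h⟩
        exact ⟨i, hi, h.symm⟩
      · rintro ⟨i, hi, h⟩
        exact ⟨i, hi, h.symm⟩
    · rw [Nat.frequently_atTop_iff_infinite] at hfreq ⊢
      refine (hfreq.image hrinj.injOn).mono ?_
      rintro _ ⟨k, hk, rfl⟩
      exact hk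

end Pool.Agent.J6H17.TA
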